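import Mathlib

/-! Polynomials without constant term, fewer than the number of variables, have a common nonzero zero. -/

set_option autoImplicit false
set_option linter.all false

namespace Pool.Agent.H552R3.Tsen

open MvPolynomial

variable {k : Type*} [Field k] [IsAlgClosed k] {σ : Type*} [Fintype σ]

/-- translation of the variables -/
noncomputable def shift (k : Type*) [Field k] {σ : Type*} (x : σ → k) : MvPolynomial σ k →ₐ[k] MvPolynomial σ k :=
  aeval (fun i => X i + C (x i))

theorem shift_shift (x : σ → k) (p : MvPolynomial σ k) : shift k x (shift k (-x) p) = p := by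
  have h : (shift k x).comp (shift k (-x)) = AlgHom.id k _ := by
    apply MvPolynomial.algHom_ext
    intro i
    simp [shift]
  exact congrArg (fun f => f p) (congrArg DFunLike.coe h)

noncomputable def shiftEquiv (x : σ → k) : MvPolynomial σ k ≃ₐ[k] MvPolynomial σ k :=
  AlgEquiv.ofAlgHom (shift k x) (shift k (-x))
    (AlgHom.ext fun p => shift_shift x p)
    (AlgHom.ext fun p => by
      have := shift_shift (-x) p
      rwa [neg_neg] at this)

theorem height_point (x : σ → k) :
    (vanishingIdeal k {x} : Ideal (MvPolynomial σ k)).height =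
      (vanishingIdeal k {(0 : σ → k)} : Ideal (MvPolynomial σ k)).height := by
  have h : (vanishingIdeal k {x} : Ideal (MvPolynomial σ k)) =
      Ideal.comap (shiftEquiv x).toRingEquiv (vanishingIdeal k {(0 : σ → k)} : Ideal (MvPolynomial σ k)) := by
    ext p
    rw [Ideal.mem_comap, mem_vanishingIdeal_singleton_iff, mem_vanishingIdeal_singleton_iff]
    have : aeval (0 : σ → k) ((shiftEquiv x).toRingEquiv p) = aeval x p := by
      change aeval (0 : σ → k) (shift k x p) = aeval x p
      have h2 : (aeval (0 : σ → k)).comp (shift k x) = aeval x := by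
        apply MvPolynomial.algHom_ext
        intro i
        simp [shift]
      exact congrArg (fun f => f p) (congrArg DFunLike.coe h2)
    rw [this]
  rw [h]
  exact RingEquiv.height_comap (shiftEquiv x).toRingEquiv _

/-- polynomials vanishing at the origin, fewer than variables: a second common zero -/
theorem exists_common_zero {ι : Type*} [Fintype ι] (P : ι → MvPolynomial σ k)
    (hP : ∀ i, eval 0 (P i) = 0) (h : Fintype.card ι < Fintype.card σ) :
    ∃ v : σ → k, v ≠ 0 ∧ ∀ i, eval v (P i) = 0 := by
  classical
  by_contra hcon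
  push Not at hcon
  let I : Ideal (MvPolynomial σ k) := Ideal.span (Set.range P)
  let m : Ideal (MvPolynomial σ k) := vanishingIdeal k {(0 : σ → k)}
  have hIm : I ≤ m := by
    rw [Ideal.span_le]
    rintro _ ⟨i, rfl⟩
    change P i ∈ m
    rw [mem_vanishingIdeal_singleton_iff]
    exact hP i
  have hz : zeroLocus k I ⊆ {(0 : σ → k)} := by
    intro v hv
    by_contra hv0
    obtain ⟨i, hi⟩ := hcon v hv0
    exact hi (hv (P i) (Ideal.subset_span ⟨i, rfl⟩))
  have hrad : m ≤ I.radical := by
    rw [← vanishingIdeal_zeroLocus_eq_radical (K := k)]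
    exact vanishingIdeal_anti_mono hz
  have hmin : m ∈ I.minimalPrimes := by
    refine ⟨⟨inferInstance, hIm⟩, ?_⟩
    rintro J ⟨hJ, hIJ⟩ _
    exact hrad.trans ((Ideal.IsPrime.radical_le_iff hJ).2 hIJ)
  have hht : m.height ≤ (Fintype.card ι : ℕ∞) := by
    have h1 := Ideal.height_le_card_of_mem_minimalPrimes_span (Set.finite_range P) hmin
    refine h1.trans ?_
    have h2 : (Set.range P).ncard ≤ Fintype.card ι := by
      rw [← Set.image_univ]
      refine (Set.ncard_image_le (Set.finite_univ)).trans ?_
      rw [Set.ncard_univ, Nat.card_eq_fintype_card]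
    exact_mod_cast h2
  have hdim : ringKrullDim (MvPolynomial σ k) ≤ ((Fintype.card ι : ℕ∞) : WithBot ℕ∞) := by
    rw [ringKrullDim_le_iff_isMaximal_height_le]
    intro M hM
    obtain ⟨x, rfl⟩ := isMaximal_iff_eq_vanishingIdeal_singleton.1 hM
    rw [height_point]
    exact_mod_cast hht
  rw [MvPolynomial.ringKrullDim_of_isNoetherianRing, ringKrullDim_eq_zero_of_field, zero_add,
    Nat.card_eq_fintype_card] at hdim
  have h3 : ((Fintype.card σ : ℕ∞) : WithBot ℕ∞) ≤ ((Fintype.card ι : ℕ∞) : WithBot ℕ∞) := by
    exact_mod_cast hdim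
  have h4 : (Fintype.card σ : ℕ∞) ≤ (Fintype.card ι : ℕ∞) := by exact_mod_cast h3
  have h5 : Fintype.card σ ≤ Fintype.card ι := by exact_mod_cast h4
  omega

end Pool.Agent.H552R3.Tsen
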